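import Pool.Agent.U398.MV.Stm3

set_option autoImplicit false

/-!
U858.MV3: the corrected statement of package EM of project MV3 (moments of the error `pS - Pp X` relative to powers of prime
polynomials; relative to arbitrary Dirichlet polynomials the statement is false because of the prime squares).
-/

namespace Pool.Agent.U858.MV3

open MeasureTheory Filter Topology Set Complex
open Pool.Agent.U398.MV

noncomputable section

/-- package EM, corrected -/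
def S_EM2 : Prop := AEStronglyMeasurable pS volume ∧ ∀ m k : ℕ, ∃ δ₀ : ℝ, 0 < δ₀ ∧
  ∀ δ : ℝ, 0 < δ → δ ≤ δ₀ → ∃ C T0 : ℝ, 0 < C ∧ 10 ≤ T0 ∧ ∀ T : ℝ, T0 ≤ T →
  ∀ α : ℕ → ℂ, (∀ p, ‖α p‖ ≤ 1) →
  IntervalIntegrable (fun t => |pS t - Pp ⌊T ^ δ⌋₊ t| ^ m * ‖Ap ⌊T ^ δ⌋₊ α t‖ ^ (2 * k)) volume
    (T / 2) (4 * T) ∧
  (∫ t in (T / 2)..(4 * T), |pS t - Pp ⌊T ^ δ⌋₊ t| ^ m * ‖Ap ⌊T ^ δ⌋₊ α t‖ ^ (2 * k)) ≤
    C * T * (1 + Vq ⌊T ^ δ⌋₊ α) ^ k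

end

end Pool.Agent.U858.MV3
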