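import Pool.Agent.U858.MV3.Core
import Pool.Agent.U858.MV2.SB

set_option autoImplicit false

/-!
U858.MV3: package EM of project MV3: moments of the error `pS - Pp X` relative to powers of prime polynomials.
-/

namespace Pool.Agent.U858.MV3

open MeasureTheory Filter Topology Set Complex
open Pool.Agent.U858.MV2 (dpl N2l cvl dpl_mul dpl_cont N2l_nonneg mv4 sum_inv_sq_le sql prl prl_eq sql_eq dpl_eq N2l_eq pS_ae)
open Pool.Agent.U398.MV (Ap Vq Pp pS)
open Pool.Agent.Q97.UM (dp N2 prc)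
open Pool.Agent.U761.SZ (THS Lz LE aS sqc LE_prc LE_cont aS_meas piS ae_piS)

noncomputable section

lemma pow3 (m : ℕ) {a b c : ℝ} (ha : 0 ≤ a) (hb : 0 ≤ b) (hc : 0 ≤ c) :
    (a + b + c) ^ m ≤ 3 ^ m * (a ^ m + b ^ m + c ^ m) := by
  have h1 : a + b + c ≤ 3 * max a (max b c) := by
    have h2 := le_max_left a (max b c)
    have h3 := (le_max_left b c).trans (le_max_right a (max b c))
    have h4 := (le_max_right b c).trans (le_max_right a (max b c))
    linarith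
  refine (pow_le_pow_left₀ (by positivity) h1 m).trans ?_
  rw [mul_pow]
  refine mul_le_mul_of_nonneg_left ?_ (by positivity)
  have ha' := pow_nonneg ha m
  have hb' := pow_nonneg hb m
  have hc' := pow_nonneg hc m
  rcases max_choice a (max b c) with h | h
  · rw [h]; linarith
  · rw [h]
    rcases max_choice b c with h' | h'
    · rw [h']; linarith
    · rw [h']; linarith

lemma amgm {W x y : ℝ} (hW : 0 < W) : x * y ≤ 1 / 2 * (W * x ^ 2 + W⁻¹ * y ^ 2) := by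
  have h1 : 0 ≤ W⁻¹ * (W * x - y) ^ 2 := by positivity
  have h2 : W⁻¹ * (W * x - y) ^ 2 = W * x ^ 2 - 2 * (x * y) + W⁻¹ * y ^ 2 := by
    field_simp
    ring
  linarith

theorem hMV : ∀ T : ℝ, 16 ≤ T → ∀ N : ℕ, (N : ℝ) ≤ T ^ (1 / 4 : ℝ) → ∀ b : ℕ → ℂ,
      ∫ t in T..(2 * T), ‖dpl N b t‖ ^ 2 ≤ 2 * T * N2l N b := by
  intro T hT N hN b
  exact (Pool.Agent.Q84.UM.t_MVL T hT N hN b).2

theorem Pp_cont (X : ℕ) : Continuous (Pp X) := by
  have : Pp X = fun t => 1 / Real.pi * (Ap X (fun _ => 1) t).im := rfl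
  rw [this]
  exact continuous_const.mul (Complex.continuous_im.comp (Ap_cont X _))

/-- the pointwise bound of the error -/
theorem err_pt (X : ℕ) : ∀ᵐ t : ℝ, |pS t - Pp X t| ≤ ‖Lz t - LE X t‖ + 4 / 3 * Pool.Agent.Q149.UM.Z3 +
    ‖dpl (X ^ 2) (sql X) t‖ := by
  filter_upwards [pS_ae] with t ht
  have hpi := Real.pi_gt_three
  have e1 : Ap X (fun _ => 1) t = dp X (prc X) t := by
    rw [← dpl_pa]
    have : pa X (fun _ => 1) = prl X := by
      funext n
      unfold pa Pool.Agent.U858.MV2.prl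
      congr
    rw [this, prl_eq]
    rfl
  have h1 := LE_prc X t
  have h2 : aS t - (Ap X (fun _ => 1) t).im = (Lz t - LE X t).im + (LE X t - dp X (prc X) t - dp (X ^ 2) (sqc X) t / 2).im
      + (dp (X ^ 2) (sqc X) t / 2).im := by
    rw [e1, Complex.sub_im, Complex.sub_im, Complex.sub_im]
    show aS t - _ = aS t - _ + _ + _
    ring
  have h3 : |aS t - (Ap X (fun _ => 1) t).im| ≤ ‖Lz t - LE X t‖ + 4 / 3 * Pool.Agent.Q149.UM.Z3 +
      ‖dpl (X ^ 2) (sql X) t‖ := by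
    rw [h2]
    have g1 := Complex.abs_im_le_norm (Lz t - LE X t)
    have g2 := (Complex.abs_im_le_norm (LE X t - dp X (prc X) t - dp (X ^ 2) (sqc X) t / 2)).trans h1
    have g3 := Complex.abs_im_le_norm (dp (X ^ 2) (sqc X) t / 2)
    have g4 : ‖dp (X ^ 2) (sqc X) t / 2‖ ≤ ‖dpl (X ^ 2) (sql X) t‖ := by
      rw [sql_eq, dpl_eq, norm_div, Complex.norm_ofNat]
      have := norm_nonneg (dp (X ^ 2) (sqc X) t)
      linarith
    have g5 := abs_add_le ((Lz t - LE X t).im + (LE X t - dp X (prc X) t - dp (X ^ 2) (sqc X) t / 2).im)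
      (dp (X ^ 2) (sqc X) t / 2).im
    have g6 := abs_add_le (Lz t - LE X t).im (LE X t - dp X (prc X) t - dp (X ^ 2) (sqc X) t / 2).im
    linarith
  have h4 : pS t - Pp X t = 1 / Real.pi * (aS t - (Ap X (fun _ => 1) t).im) := by
    rw [ht]
    unfold Pool.Agent.U398.MV.Pp
    ring
  rw [h4, abs_mul]
  have h5 : |1 / Real.pi| ≤ 1 := by
    rw [abs_of_pos (by positivity), div_le_one (by linarith)]
    linarith
  calc _ ≤ 1 * |aS t - (Ap X (fun _ => 1) t).im| := mul_le_mul_of_nonneg_right h5 (abs_nonneg _)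
    _ ≤ _ := by rw [one_mul]; exact h3

/-- package EM -/
theorem t_EM2 : S_EM2 := by
  refine ⟨Pool.Agent.U858.MV2.t_SB.1, fun m k => ?_⟩
  obtain ⟨θ, δ₀, hθ, hδ₀, hTHS⟩ := THS m
  set Z : ℝ := 4 / 3 * Pool.Agent.Q149.UM.Z3 with hZd
  have hZ : 0 ≤ Z := mul_nonneg (by norm_num) Pool.Agent.Q149.UM.Z3_nonneg
  refine ⟨min (min δ₀ (θ / (k + 1))) (1 / (16 * (m + 2 * k + 1))), by positivity, fun δ hδ hδ' => ?_⟩
  have d1 : δ ≤ δ₀ := hδ'.trans ((min_le_left _ _).trans (min_le_left _ _))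
  have d2 : δ * k ≤ θ := by
    have h := hδ'.trans ((min_le_left _ _).trans (min_le_right _ _))
    rw [le_div_iff₀ (by positivity)] at h
    nlinarith
  have d3 : δ * (m + 2 * k) ≤ 1 / 16 := by
    have h := hδ'.trans (min_le_right _ _)
    rw [le_div_iff₀ (by positivity)] at h
    nlinarith
  obtain ⟨C, hC, hev⟩ := hTHS δ hδ d1
  obtain ⟨T1, hT1⟩ := eventually_atTop.1 hev
  set K : ℝ := 3 ^ m * (C * k.factorial + Z ^ m * (7 * k.factorial) +
    1 / 2 * (7 * (m.factorial * 2 ^ m) + 7 * (2 * k).factorial)) + 1 with hK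
  have hKpos : 0 < K := by rw [hK]; positivity
  refine ⟨K, max T1 64, hKpos, by
    have := le_max_right T1 64
    linarith, fun T hT α hα => ?_⟩
  have hTT1 : T1 ≤ T := (le_max_left _ _).trans hT
  have hT64 : 64 ≤ T := (le_max_right _ _).trans hT
  have hT0 : 0 < T := by linarith
  have hT1' : 1 ≤ T := by linarith
  set X := ⌊T ^ δ⌋₊ with hX
  have hXle : (X : ℝ) ≤ T ^ δ := Nat.floor_le (by positivity)
  have hXp : ∀ j : ℕ, ((X ^ j : ℕ) : ℝ) ≤ T ^ (δ * j) := by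
    intro j
    rw [Nat.cast_pow, Real.rpow_mul hT0.le, Real.rpow_natCast]
    exact pow_le_pow_left₀ (Nat.cast_nonneg _) hXle j
  have hXθ : ((X ^ k : ℕ) : ℝ) ≤ T ^ θ := (hXp k).trans (Real.rpow_le_rpow_of_exponent_le hT1' d2)
  have hq : T ^ (1 / 8 : ℝ) ≤ (T / 2) ^ (1 / 4 : ℝ) := by
    have h1 : T ^ (1 / 8 : ℝ) = (T ^ (1 / 2 : ℝ)) ^ (1 / 4 : ℝ) := by
      rw [← Real.rpow_mul hT0.le]
      norm_num
    rw [h1]
    refine Real.rpow_le_rpow (by positivity) ?_ (by norm_num)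
    rw [← Real.sqrt_eq_rpow, Real.sqrt_le_left (by linarith)]
    nlinarith
  have hXj : ∀ j : ℕ, j ≤ m + 2 * k → ((X ^ j : ℕ) : ℝ) ≤ (T / 2) ^ (1 / 4 : ℝ) := by
    intro j hj
    refine ((hXp j).trans (Real.rpow_le_rpow_of_exponent_le hT1' ?_)).trans hq
    have : (j : ℝ) ≤ m + 2 * k := by exact_mod_cast hj
    nlinarith
  set V := Vq X α with hV
  have hV0 : 0 ≤ V := Vq_nonneg X α
  obtain ⟨c, -, hc1, hc2⟩ := pw X α k
  obtain ⟨i1, i2⟩ := hT1 T hTT1 (X ^ k) hXθ c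
  have e1 : ∀ t : ℝ, ‖dp (X ^ k) c t‖ ^ 2 = ‖Ap X α t‖ ^ (2 * k) := by
    intro t
    rw [← dpl_eq, ← hc1 t, norm_pow]
    ring
  have e2 : (fun t => ‖Lz t - LE X t‖ ^ m * ‖dp (X ^ k) c t‖ ^ 2) = fun t => ‖Lz t - LE X t‖ ^ m * ‖Ap X α t‖ ^ (2 * k) := by
    funext t
    rw [e1]
  rw [e2] at i1 i2
  have i2' : ∫ t in (T / 2)..(4 * T), ‖Lz t - LE X t‖ ^ m * ‖Ap X α t‖ ^ (2 * k) ≤ C * T * (k.factorial * V ^ k) :=
    i2.trans (mul_le_mul_of_nonneg_left hc2 (by positivity))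
  have cA : Continuous fun t => ‖Ap X α t‖ := (Ap_cont X α).norm
  have cD : Continuous fun t => ‖dpl (X ^ 2) (sql X) t‖ := (dpl_cont _ _).norm
  have M1 := mom hMV (T := T) (by linarith) X k (hXj k (by omega)) α
  have M2 := mom hMV (T := T) (by linarith) X (2 * k) (hXj (2 * k) (by omega)) α
  have M3 := mom2 hMV (T := T) (by linarith) X m ((hXj m (by omega)).trans
    (Real.rpow_le_rpow (by linarith) (by linarith) (by norm_num)))
  set W := (1 + V) ^ k with hW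
  have hW0 : 0 < W := by positivity
  have hVW : V ^ k ≤ W := pow_le_pow_left₀ hV0 (by linarith) k
  have hVW2 : W⁻¹ * V ^ (2 * k) ≤ W := by
    have h1 : V ^ (2 * k) ≤ W * W := by
      rw [two_mul, pow_add]
      exact mul_le_mul hVW hVW (by positivity) hW0.le
    rw [inv_mul_le_iff₀ hW0]
    exact h1
  -- the majorant
  set G : ℝ → ℝ := fun t => 3 ^ m * (‖Lz t - LE X t‖ ^ m * ‖Ap X α t‖ ^ (2 * k) + Z ^ m * ‖Ap X α t‖ ^ (2 * k) +
    1 / 2 * (W * ‖dpl (X ^ 2) (sql X) t‖ ^ (2 * m) + W⁻¹ * ‖Ap X α t‖ ^ (2 * (2 * k)))) with hG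
  have iZ : IntervalIntegrable (fun t => Z ^ m * ‖Ap X α t‖ ^ (2 * k)) volume (T / 2) (4 * T) :=
    ((cA.pow _).const_mul _).intervalIntegrable _ _
  have iD : IntervalIntegrable (fun t => W * ‖dpl (X ^ 2) (sql X) t‖ ^ (2 * m)) volume (T / 2) (4 * T) :=
    ((cD.pow _).const_mul _).intervalIntegrable _ _
  have iA : IntervalIntegrable (fun t => W⁻¹ * ‖Ap X α t‖ ^ (2 * (2 * k))) volume (T / 2) (4 * T) :=
    ((cA.pow _).const_mul _).intervalIntegrable _ _
  have iG : IntervalIntegrable G volume (T / 2) (4 * T) :=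
    ((i1.add iZ).add ((iD.add iA).const_mul (1 / 2))).const_mul (3 ^ m)
  have hpt : ∀ᵐ t : ℝ, |pS t - Pp X t| ^ m * ‖Ap X α t‖ ^ (2 * k) ≤ G t := by
    filter_upwards [err_pt X] with t ht
    have hA : 0 ≤ ‖Ap X α t‖ ^ (2 * k) := by positivity
    have h1 : |pS t - Pp X t| ^ m ≤ 3 ^ m * (‖Lz t - LE X t‖ ^ m + Z ^ m + ‖dpl (X ^ 2) (sql X) t‖ ^ m) :=
      (pow_le_pow_left₀ (abs_nonneg _) ht m).trans (pow3 m (norm_nonneg _) hZ (norm_nonneg _))
    have h2 := amgm (x := ‖dpl (X ^ 2) (sql X) t‖ ^ m) (y := ‖Ap X α t‖ ^ (2 * k)) hW0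
    have h3 : (‖dpl (X ^ 2) (sql X) t‖ ^ m) ^ 2 = ‖dpl (X ^ 2) (sql X) t‖ ^ (2 * m) := by ring
    have h4 : (‖Ap X α t‖ ^ (2 * k)) ^ 2 = ‖Ap X α t‖ ^ (2 * (2 * k)) := by ring
    rw [h3, h4] at h2
    have h5 := mul_le_mul_of_nonneg_right h1 hA
    refine h5.trans ?_
    rw [hG]
    simp only
    have h6 : (0 : ℝ) ≤ 3 ^ m := by positivity
    have h7 := mul_le_mul_of_nonneg_left h2 h6
    calc _ = 3 ^ m * (‖Lz t - LE X t‖ ^ m * ‖Ap X α t‖ ^ (2 * k)) + 3 ^ m * (Z ^ m * ‖Ap X α t‖ ^ (2 * k)) +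
          3 ^ m * (‖dpl (X ^ 2) (sql X) t‖ ^ m * ‖Ap X α t‖ ^ (2 * k)) := by ring
      _ ≤ _ := by linarith
  have hmeas : AEStronglyMeasurable (fun t => |pS t - Pp X t| ^ m * ‖Ap X α t‖ ^ (2 * k)) volume := by
    have h1 : AEStronglyMeasurable (fun t => |pS t - Pp X t|) volume := by
      have := (Pool.Agent.U858.MV2.t_SB.1.sub (Pp_cont X).aestronglyMeasurable).norm
      exact this
    exact (h1.pow m).mul (cA.pow _).aestronglyMeasurable
  have hle : T / 2 ≤ 4 * T := by linarith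
  have iF : IntervalIntegrable (fun t => |pS t - Pp X t| ^ m * ‖Ap X α t‖ ^ (2 * k)) volume (T / 2) (4 * T) := by
    refine iG.mono_fun' hmeas.restrict ?_
    refine ae_restrict_of_ae ?_
    filter_upwards [hpt] with t ht
    rw [Real.norm_of_nonneg (by positivity)]
    exact ht
  refine ⟨iF, ?_⟩
  have hmono := intervalIntegral.integral_mono_ae hle iF iG hpt
  refine hmono.trans ?_
  have e3 : ∫ t in (T / 2)..(4 * T), G t = 3 ^ m * ((∫ t in (T / 2)..(4 * T), ‖Lz t - LE X t‖ ^ m * ‖Ap X α t‖ ^ (2 * k)) +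
      Z ^ m * (∫ t in (T / 2)..(4 * T), ‖Ap X α t‖ ^ (2 * k)) + 1 / 2 * (W * (∫ t in (T / 2)..(4 * T), ‖dpl (X ^ 2) (sql X) t‖ ^ (2 * m)) +
      W⁻¹ * ∫ t in (T / 2)..(4 * T), ‖Ap X α t‖ ^ (2 * (2 * k)))) := by
    rw [hG, intervalIntegral.integral_const_mul, intervalIntegral.integral_add (i1.add iZ) ((iD.add iA).const_mul (1 / 2)),
      intervalIntegral.integral_add i1 iZ, intervalIntegral.integral_const_mul, intervalIntegral.integral_const_mul,
      intervalIntegral.integral_add iD iA, intervalIntegral.integral_const_mul, intervalIntegral.integral_const_mul]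
  rw [e3]
  have b1 : (∫ t in (T / 2)..(4 * T), ‖Lz t - LE X t‖ ^ m * ‖Ap X α t‖ ^ (2 * k)) ≤ C * k.factorial * (T * W) := by
    refine i2'.trans ?_
    have := mul_le_mul_of_nonneg_left hVW (by positivity : 0 ≤ C * T * k.factorial)
    linarith
  have b2 : Z ^ m * (∫ t in (T / 2)..(4 * T), ‖Ap X α t‖ ^ (2 * k)) ≤ Z ^ m * (7 * k.factorial) * (T * W) := by
    have h1 : (∫ t in (T / 2)..(4 * T), ‖Ap X α t‖ ^ (2 * k)) ≤ 7 * k.factorial * (T * W) := by
      refine M1.trans ?_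
      have := mul_le_mul_of_nonneg_left hVW (by positivity : (0 : ℝ) ≤ 7 * T * k.factorial)
      linarith
    have := mul_le_mul_of_nonneg_left h1 (by positivity : 0 ≤ Z ^ m)
    linarith
  have b3 : W * (∫ t in (T / 2)..(4 * T), ‖dpl (X ^ 2) (sql X) t‖ ^ (2 * m)) ≤ 7 * (m.factorial * 2 ^ m) * (T * W) := by
    have := mul_le_mul_of_nonneg_left M3 hW0.le
    linarith
  have b4 : W⁻¹ * (∫ t in (T / 2)..(4 * T), ‖Ap X α t‖ ^ (2 * (2 * k))) ≤ 7 * (2 * k).factorial * (T * W) := by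
    have h1 := mul_le_mul_of_nonneg_left M2 (inv_pos.2 hW0).le
    refine h1.trans ?_
    have h2 := mul_le_mul_of_nonneg_left hVW2 (by positivity : (0 : ℝ) ≤ 7 * T * (2 * k).factorial)
    linarith
  have hTW : 0 ≤ T * W := by positivity
  calc _ ≤ 3 ^ m * (C * k.factorial * (T * W) + Z ^ m * (7 * k.factorial) * (T * W) +
        1 / 2 * (7 * (m.factorial * 2 ^ m) * (T * W) + 7 * (2 * k).factorial * (T * W))) := by
        refine mul_le_mul_of_nonneg_left ?_ (by positivity)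
        linarith
    _ = (K - 1) * (T * W) := by
        rw [hK]
        ring
    _ ≤ K * T * W := by
        nlinarith

end

end Pool.Agent.U858.MV3
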