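import Pool.Agent.U858.MV2.Core2
import Pool.Agent.U858.MV3.Stm

set_option autoImplicit false

/-!
U858.MV3: package EM of project MV3, elementary part: powers of prime polynomials.
-/

namespace Pool.Agent.U858.MV3

open MeasureTheory Filter Topology Set Complex
open Pool.Agent.U858.MV2 (dpl N2l cvl dpl_mul dpl_cont N2l_nonneg mv4 sum_inv_sq_le sql)
open Pool.Agent.U398.MV (Ap Vq)

noncomputable section

/-- prime coefficients -/
def pa (X : ℕ) (α : ℕ → ℂ) (n : ℕ) : ℂ := open Classical in if n.Prime ∧ n ≤ X then α n else 0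

theorem pa_ne {X n : ℕ} {α : ℕ → ℂ} (h : pa X α n ≠ 0) : n.Prime ∧ n ≤ X := by
  unfold pa at h
  by_contra h1
  rw [if_neg h1] at h
  exact h rfl

theorem pa_eq {X n : ℕ} {α : ℕ → ℂ} (h : n.Prime ∧ n ≤ X) : pa X α n = α n := by
  unfold pa
  rw [if_pos h]

theorem pa_zero {X n : ℕ} {α : ℕ → ℂ} (h : X < n) : pa X α n = 0 := by
  by_contra h1
  have := (pa_ne h1).2
  omega

theorem dpl_pa (X : ℕ) (α : ℕ → ℂ) (t : ℝ) : dpl X (pa X α) t = Ap X α t := by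
  unfold dpl Ap
  rw [Finset.sum_filter]
  refine Finset.sum_congr rfl fun n hn => ?_
  rw [Finset.mem_Icc] at hn
  by_cases h : n.Prime
  · rw [if_pos h, pa_eq ⟨h, hn.2⟩]
  · have : pa X α n = 0 := by
      by_contra h1
      exact h (pa_ne h1).1
    rw [if_neg h, this, zero_mul]

theorem N2_pa (X : ℕ) (α : ℕ → ℂ) : N2l X (pa X α) = Vq X α := by
  unfold N2l Vq
  rw [Finset.sum_filter]
  refine Finset.sum_congr rfl fun n hn => ?_
  rw [Finset.mem_Icc] at hn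
  by_cases h : n.Prime
  · rw [if_pos h, pa_eq ⟨h, hn.2⟩]
  · have : pa X α n = 0 := by
      by_contra h1
      exact h (pa_ne h1).1
    rw [if_neg h, this, norm_zero]
    simp

theorem Vq_nonneg (X : ℕ) (α : ℕ → ℂ) : 0 ≤ Vq X α := by
  rw [← N2_pa]
  exact N2l_nonneg _ _

theorem supp_step {X M j : ℕ} {α c : ℕ → ℂ}
    (hc : ∀ n, c n ≠ 0 → n ≠ 0 ∧ n.primeFactorsList.length = j ∧ n ≤ M) {n : ℕ} {q : ℕ × ℕ}
    (hq : q ∈ n.divisorsAntidiagonal) (h3 : pa X α q.1 ≠ 0) (h4 : c q.2 ≠ 0) :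
    q.1.Prime ∧ n ≠ 0 ∧ n.primeFactorsList.length = j + 1 ∧ n ≤ X * M := by
  rw [Nat.mem_divisorsAntidiagonal] at hq
  obtain ⟨h1, h2⟩ := hq
  have hp := pa_ne h3
  obtain ⟨h5, h6, h7⟩ := hc _ h4
  refine ⟨hp.1, h2, ?_, ?_⟩
  · rw [← h1, (Nat.perm_primeFactorsList_mul hp.1.ne_zero h5).length_eq, List.length_append, h6,
      Nat.primeFactorsList_prime hp.1]
    simp
    omega
  · rw [← h1]
    exact Nat.mul_le_mul hp.2 h7

theorem key_step {X M j : ℕ} {α c : ℕ → ℂ}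
    (hc : ∀ n, c n ≠ 0 → n ≠ 0 ∧ n.primeFactorsList.length = j ∧ n ≤ M) (n : ℕ) :
    ‖cvl (pa X α) c n‖ ^ 2 ≤
      ((j + 1 : ℕ) : ℝ) * ∑ q ∈ n.divisorsAntidiagonal, ‖pa X α q.1‖ ^ 2 * ‖c q.2‖ ^ 2 := by
  classical
  set S := n.divisorsAntidiagonal.filter (fun q => pa X α q.1 ≠ 0 ∧ c q.2 ≠ 0) with hS
  have e1 : cvl (pa X α) c n = ∑ q ∈ S, pa X α q.1 * c q.2 := by
    unfold cvl
    rw [hS, Finset.sum_filter_of_ne]
    intro q _ h
    exact ⟨left_ne_zero_of_mul h, right_ne_zero_of_mul h⟩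
  have e2 : ‖cvl (pa X α) c n‖ ^ 2 ≤ (S.card : ℝ) * ∑ q ∈ S, ‖pa X α q.1‖ ^ 2 * ‖c q.2‖ ^ 2 := by
    rw [e1]
    have h1 : ‖∑ q ∈ S, pa X α q.1 * c q.2‖ ≤ ∑ q ∈ S, ‖pa X α q.1‖ * ‖c q.2‖ := by
      refine (norm_sum_le _ _).trans (le_of_eq ?_)
      exact Finset.sum_congr rfl fun q _ => norm_mul _ _
    have h2 := sq_sum_le_card_mul_sum_sq (s := S) (f := fun q => ‖pa X α q.1‖ * ‖c q.2‖)
    refine ((pow_le_pow_left₀ (norm_nonneg _) h1 2).trans h2).trans (le_of_eq ?_)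
    congr 1
    exact Finset.sum_congr rfl fun q _ => by ring
  have e3 : S.card ≤ j + 1 := by
    rcases S.eq_empty_or_nonempty with h | ⟨q, hq⟩
    · rw [h]; simp
    · rw [hS, Finset.mem_filter] at hq
      obtain ⟨-, h0, hlen, -⟩ := supp_step hc hq.1 hq.2.1 hq.2.2
      calc S.card ≤ n.primeFactors.card := by
            refine Finset.card_le_card_of_injOn Prod.fst (fun x hx => ?_) (fun x hx y hy hxy => ?_)
            · rw [Finset.mem_coe, hS, Finset.mem_filter, Nat.mem_divisorsAntidiagonal] at hx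
              rw [Finset.mem_coe, Nat.mem_primeFactors]
              exact ⟨(pa_ne hx.2.1).1, ⟨x.2, hx.1.1.symm⟩, hx.1.2⟩
            · rw [Finset.mem_coe, hS, Finset.mem_filter, Nat.mem_divisorsAntidiagonal] at hx hy
              have hx0 := (pa_ne hx.2.1).1.pos
              have h2 : x.1 * x.2 = x.1 * y.2 := by
                rw [hx.1.1, hxy, hy.1.1]
              exact Prod.ext hxy (Nat.eq_of_mul_eq_mul_left hx0 h2)
        _ ≤ n.primeFactorsList.length := List.toFinset_card_le _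
        _ = j + 1 := hlen
  have e4 : ∑ q ∈ S, ‖pa X α q.1‖ ^ 2 * ‖c q.2‖ ^ 2 ≤
      ∑ q ∈ n.divisorsAntidiagonal, ‖pa X α q.1‖ ^ 2 * ‖c q.2‖ ^ 2 :=
    Finset.sum_le_sum_of_subset_of_nonneg (Finset.filter_subset _ _) fun q _ _ => by positivity
  have e5 : (0 : ℝ) ≤ ∑ q ∈ S, ‖pa X α q.1‖ ^ 2 * ‖c q.2‖ ^ 2 := Finset.sum_nonneg fun q _ => by positivity
  have e6 : (S.card : ℝ) ≤ ((j + 1 : ℕ) : ℝ) := by exact_mod_cast e3
  exact e2.trans (mul_le_mul e6 e4 e5 (by positivity))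

theorem N2_step {X M j : ℕ} {α c : ℕ → ℂ}
    (hc : ∀ n, c n ≠ 0 → n ≠ 0 ∧ n.primeFactorsList.length = j ∧ n ≤ M) :
    N2l (X * M) (cvl (pa X α) c) ≤ ((j + 1 : ℕ) : ℝ) * (Vq X α * N2l M c) := by
  have h1 : N2l (X * M) (cvl (pa X α) c) ≤ ((j + 1 : ℕ) : ℝ) * ∑ n ∈ Finset.Icc 1 (X * M),
      (∑ q ∈ n.divisorsAntidiagonal, ‖pa X α q.1‖ ^ 2 * ‖c q.2‖ ^ 2) / n := by
    unfold N2l
    rw [Finset.mul_sum]
    refine Finset.sum_le_sum fun n hn => ?_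
    rw [← mul_div_assoc]
    exact div_le_div_of_nonneg_right (key_step hc n) (Nat.cast_nonneg n)
  refine h1.trans (mul_le_mul_of_nonneg_left (le_of_eq ?_) (by positivity))
  rw [← N2_pa]
  unfold N2l
  symm
  rw [Finset.sum_mul_sum, ← Finset.sum_product']
  rw [← Finset.sum_fiberwise_of_maps_to (t := Finset.Icc 1 (X * M)) (g := fun p : ℕ × ℕ => p.1 * p.2)]
  · refine Finset.sum_congr rfl fun n hn => ?_
    rw [Finset.mem_Icc] at hn
    rw [Finset.sum_div]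
    refine Finset.sum_subset_zero_on_sdiff ?_ ?_ ?_
    · intro p hp
      rw [Finset.mem_filter] at hp
      rw [Nat.mem_divisorsAntidiagonal]
      exact ⟨hp.2, by omega⟩
    · intro p hp
      rw [Finset.mem_sdiff, Nat.mem_divisorsAntidiagonal, Finset.mem_filter, Finset.mem_product,
        Finset.mem_Icc, Finset.mem_Icc] at hp
      obtain ⟨⟨h1, h2⟩, h3⟩ := hp
      have h4 : p.1 ≠ 0 := by rintro h; rw [h] at h1; simp at h1; omega
      have h5 : p.2 ≠ 0 := by rintro h; rw [h] at h1; simp at h1; omega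
      by_cases h6 : X < p.1
      · rw [pa_zero h6, norm_zero]; simp
      · by_cases h7 : M < p.2
        · have : c p.2 = 0 := by
            by_contra h8
            have := (hc _ h8).2.2
            omega
          rw [this, norm_zero]; simp
        · exact absurd ⟨⟨⟨by omega, by omega⟩, ⟨by omega, by omega⟩⟩, h1⟩ h3
    · intro p hp
      rw [Finset.mem_filter] at hp
      rw [← hp.2, Nat.cast_mul, div_mul_div_comm]
  · intro p hp
    rw [Finset.mem_product, Finset.mem_Icc, Finset.mem_Icc] at hp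
    rw [Finset.mem_Icc]
    exact ⟨Nat.mul_pos (by omega) (by omega), Nat.mul_le_mul hp.1.2 hp.2.2⟩

/-- powers of prime polynomials -/
theorem pw (X : ℕ) (α : ℕ → ℂ) : ∀ j : ℕ, ∃ c : ℕ → ℂ,
    (∀ n, c n ≠ 0 → n ≠ 0 ∧ n.primeFactorsList.length = j ∧ n ≤ X ^ j) ∧
    (∀ t, Ap X α t ^ j = dpl (X ^ j) c t) ∧ N2l (X ^ j) c ≤ (j.factorial : ℝ) * Vq X α ^ j := by
  intro j
  induction j with
  | zero =>
    refine ⟨fun n => if n = 1 then 1 else 0, fun n hn => ?_, fun t => ?_, ?_⟩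
    · have : n = 1 := by
        by_contra h
        simp [h] at hn
      subst this
      simp
    · unfold Pool.Agent.U858.MV2.dpl
      simp
    · unfold Pool.Agent.U858.MV2.N2l
      simp
  | succ j ih =>
    obtain ⟨c, h1, h2, h3⟩ := ih
    refine ⟨cvl (pa X α) c, fun n hn => ?_, fun t => ?_, ?_⟩
    · unfold Pool.Agent.U858.MV2.cvl at hn
      obtain ⟨q, hq, hq2⟩ := Finset.exists_ne_zero_of_sum_ne_zero hn
      obtain ⟨-, g1, g2, g3⟩ := supp_step h1 hq (left_ne_zero_of_mul hq2) (right_ne_zero_of_mul hq2)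
      refine ⟨g1, g2, ?_⟩
      rw [pow_succ']
      exact g3
    · rw [pow_succ', pow_succ', h2 t, ← dpl_pa X α t]
      exact dpl_mul X (X ^ j) _ _ t (fun n hn => pa_zero hn) (fun n hn => by
        by_contra h8
        have := (h1 _ h8).2.2
        omega)
    · rw [pow_succ' X j]
      refine (N2_step h1).trans ?_
      rw [Nat.factorial_succ, Nat.cast_mul, pow_succ', mul_assoc]
      refine mul_le_mul_of_nonneg_left ?_ (by positivity)
      have := mul_le_mul_of_nonneg_left h3 (Vq_nonneg X α)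
      calc _ ≤ _ := this
        _ = _ := by ring

theorem Ap_cont (X : ℕ) (α : ℕ → ℂ) : Continuous (Ap X α) := by
  have : Ap X α = dpl X (pa X α) := funext fun t => (dpl_pa X α t).symm
  rw [this]
  exact dpl_cont _ _

/-- moments of prime polynomials -/
theorem mom (hMV : ∀ T : ℝ, 16 ≤ T → ∀ N : ℕ, (N : ℝ) ≤ T ^ (1 / 4 : ℝ) → ∀ b : ℕ → ℂ,
      ∫ t in T..(2 * T), ‖dpl N b t‖ ^ 2 ≤ 2 * T * N2l N b)
    {T : ℝ} (hT : 32 ≤ T) (X j : ℕ) (hX : ((X ^ j : ℕ) : ℝ) ≤ (T / 2) ^ (1 / 4 : ℝ)) (α : ℕ → ℂ) :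
    ∫ t in (T / 2)..(4 * T), ‖Ap X α t‖ ^ (2 * j) ≤ 7 * T * ((j.factorial : ℝ) * Vq X α ^ j) := by
  obtain ⟨c, -, h2, h3⟩ := pw X α j
  have e : (fun t => ‖Ap X α t‖ ^ (2 * j)) = fun t => ‖dpl (X ^ j) c t‖ ^ 2 := by
    funext t
    rw [← h2 t, norm_pow]
    ring
  rw [e]
  refine (mv4 hMV hT _ hX c).trans ?_
  exact mul_le_mul_of_nonneg_left h3 (by linarith)

/-- the coefficients of the squares -/
def a2 (p : ℕ) : ℂ := (p : ℂ) ^ (-(1 / 2) : ℂ)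

theorem Vq_a2 (X : ℕ) : Vq X a2 ≤ 2 := by
  refine le_trans (le_of_eq ?_) (sum_inv_sq_le X)
  unfold Pool.Agent.U398.MV.Vq
  refine Finset.sum_congr rfl fun p hp => ?_
  have hp' := (Finset.mem_filter.1 hp).2
  have h1 : ‖a2 p‖ = (p : ℝ) ^ (-(1 / 2) : ℝ) := by
    unfold a2
    rw [Complex.norm_natCast_cpow_of_pos hp'.pos]
    congr 1
    simp
  have h2 : ‖a2 p‖ ^ 2 = (p : ℝ)⁻¹ := by
    rw [h1, ← Real.rpow_natCast, ← Real.rpow_mul (Nat.cast_nonneg p), ← Real.rpow_neg_one]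
    norm_num
  rw [h2]
  push_cast
  have hp0 : (p : ℝ) ≠ 0 := by exact_mod_cast hp'.ne_zero
  field_simp

theorem dpl_sq (X : ℕ) (t : ℝ) : dpl (X ^ 2) (sql X) t = Ap X a2 (2 * t) := by
  classical
  have h1 : Ap X a2 (2 * t) = ∑ p ∈ (Finset.Icc 1 X).filter Nat.Prime, ((p ^ 2 : ℕ) : ℂ) ^ (-(1 / 2 + t * I)) := by
    unfold Pool.Agent.U398.MV.Ap a2
    refine Finset.sum_congr rfl fun p hp => ?_
    have hp' := (Finset.mem_filter.1 hp).2
    have hp0 : (p : ℂ) ≠ 0 := by exact_mod_cast hp'.ne_zero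
    rw [← Complex.cpow_add _ _ hp0, Nat.cast_pow, ← Complex.natCast_cpow_natCast_mul]
    congr 1
    push_cast
    ring
  have h2 : ∑ p ∈ (Finset.Icc 1 X).filter Nat.Prime, ((p ^ 2 : ℕ) : ℂ) ^ (-(1 / 2 + t * I)) =
      ∑ d ∈ ((Finset.Icc 1 X).filter Nat.Prime).image (fun p : ℕ => (p ^ 2 : ℕ)), (d : ℂ) ^ (-(1 / 2 + t * I)) := by
    rw [Finset.sum_image]
    intro p _ q _ h
    exact Nat.pow_left_injective (n := 2) (by norm_num) h
  rw [h1, h2]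
  unfold Pool.Agent.U858.MV2.dpl
  symm
  refine Finset.sum_subset_zero_on_sdiff (fun d hd => ?_) (fun d hd => ?_) (fun d hd => ?_)
  · rw [Finset.mem_image] at hd
    obtain ⟨p, hp, rfl⟩ := hd
    rw [Finset.mem_filter, Finset.mem_Icc] at hp
    rw [Finset.mem_Icc]
    exact ⟨Nat.one_le_pow _ _ hp.2.pos, Nat.pow_le_pow_left hp.1.2 2⟩
  · rw [Finset.mem_sdiff, Finset.mem_image] at hd
    have : sql X d = 0 := by
      unfold Pool.Agent.U858.MV2.sql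
      rw [if_neg]
      rintro ⟨p, hp1, hp2, rfl⟩
      exact hd.2 ⟨p, Finset.mem_filter.2 ⟨Finset.mem_Icc.2 ⟨hp1.pos, hp2⟩, hp1⟩, rfl⟩
    rw [this, zero_mul]
  · rw [Finset.mem_image] at hd
    obtain ⟨p, hp, rfl⟩ := hd
    rw [Finset.mem_filter, Finset.mem_Icc] at hp
    have : sql X (p ^ 2) = 1 := by
      unfold Pool.Agent.U858.MV2.sql
      rw [if_pos ⟨p, hp.2, hp.1.2, rfl⟩]
    rw [this, one_mul]

/-- moments of the prime squares -/
theorem mom2 (hMV : ∀ T : ℝ, 16 ≤ T → ∀ N : ℕ, (N : ℝ) ≤ T ^ (1 / 4 : ℝ) → ∀ b : ℕ → ℂ,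
      ∫ t in T..(2 * T), ‖dpl N b t‖ ^ 2 ≤ 2 * T * N2l N b)
    {T : ℝ} (hT : 32 ≤ T) (X j : ℕ) (hX : ((X ^ j : ℕ) : ℝ) ≤ T ^ (1 / 4 : ℝ)) :
    ∫ t in (T / 2)..(4 * T), ‖dpl (X ^ 2) (sql X) t‖ ^ (2 * j) ≤ 7 * T * ((j.factorial : ℝ) * 2 ^ j) := by
  have h1 : ∫ t in (T / 2)..(4 * T), ‖dpl (X ^ 2) (sql X) t‖ ^ (2 * j) =
      (2 : ℝ)⁻¹ * ∫ t in ((2 * T) / 2)..(4 * (2 * T)), ‖Ap X a2 t‖ ^ (2 * j) := by
    have h2 := intervalIntegral.integral_comp_mul_left (a := T / 2) (b := 4 * T)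
      (fun t => ‖Ap X a2 t‖ ^ (2 * j)) (c := 2) (by norm_num)
    have e1 : (2 : ℝ) * (T / 2) = (2 * T) / 2 := by ring
    have e2 : (2 : ℝ) * (4 * T) = 4 * (2 * T) := by ring
    rw [e1, e2, smul_eq_mul] at h2
    rw [← h2]
    refine intervalIntegral.integral_congr fun t _ => ?_
    show ‖dpl (X ^ 2) (sql X) t‖ ^ (2 * j) = ‖Ap X a2 (2 * t)‖ ^ (2 * j)
    rw [dpl_sq]
  rw [h1]
  have h3 := mom hMV (T := 2 * T) (by linarith) X j (by
    rw [show 2 * T / 2 = T by ring]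
    exact hX) a2
  have h4 : Vq X a2 ^ j ≤ 2 ^ j := pow_le_pow_left₀ (Vq_nonneg _ _) (Vq_a2 X) j
  have h5 : (j.factorial : ℝ) * Vq X a2 ^ j ≤ (j.factorial : ℝ) * 2 ^ j :=
    mul_le_mul_of_nonneg_left h4 (by positivity)
  have h6 := mul_le_mul_of_nonneg_left h5 (by linarith : 0 ≤ 7 * T)
  linarith

end

end Pool.Agent.U858.MV3
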